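import Pool.Agent.H92.HB.Stm

/-!
# Module ABS of the project HB: restriction and fixed classes
-/

set_option autoImplicit false
set_option linter.all false

namespace Pool.Agent.H5.HB

open Pool.Agent.H92.HB

section
variable {Γ T : Type} [Group Γ] [AddCommGroup T] [DistribMulAction Γ T] (S : LocSys Γ T)
  (U : Subgroup Γ) (hU : U.Normal)

include S in
theorem z_one {f : U → T} (hf : f ∈ S.Z U) : f 1 = 0 := by
  have h := S.coc U f hf 1 1
  rw [mul_one] at h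
  have h1 : (((1 : U) : Γ) • f 1) = f 1 := by
    rw [OneMemClass.coe_one, one_smul]
  rw [h1] at h
  exact left_eq_add.mp h

/-- conjugation of functions on `U` -/
def cjf (τ : Γ) (f : U → T) : U → T := fun σ =>
  τ • f ⟨τ⁻¹ * σ * τ, by
    have h := hU.conj_mem σ σ.2 τ⁻¹
    rwa [inv_inv] at h⟩

theorem cjf_mem (τ : Γ) {f : U → T} (hf : f ∈ S.Z U) : cjf U hU τ f ∈ S.Z U := by
  refine S.conj U hU τ f hf _ fun σ σ' h => ?_
  unfold cjf
  congr 2
  apply Subtype.ext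
  show τ⁻¹ * (σ : Γ) * τ = σ'
  rw [mul_assoc, h, inv_mul_cancel_left]

/-- conjugation of cocycles -/
def cjH (τ : Γ) : S.Z U →+ S.Z U where
  toFun f := ⟨cjf U hU τ f.1, cjf_mem S U hU τ f.2⟩
  map_zero' := by
    apply Subtype.ext
    funext σ
    show τ • (0 : T) = 0
    rw [smul_zero]
  map_add' f g := by
    apply Subtype.ext
    funext σ
    show τ • (f.1 _ + g.1 _) = τ • f.1 _ + τ • g.1 _
    rw [smul_add]

theorem cjH_B (τ : Γ) : S.B U ≤ (S.B U).comap (cjH S U hU τ) := by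
  rintro f ⟨t, ht⟩
  refine ⟨τ • t, fun σ => ?_⟩
  show τ • f.1 _ = _
  rw [ht, smul_sub]
  show τ • ((τ⁻¹ * (σ : Γ) * τ) • t) - τ • t = _
  rw [← mul_smul, ← mul_assoc, mul_inv_cancel_left, mul_smul]

/-- conjugation of classes -/
noncomputable def rho (τ : Γ) : S.A U →+ S.A U :=
  QuotientAddGroup.map (S.B U) (S.B U) (cjH S U hU τ) (cjH_B S U hU τ)

theorem rho_mk (τ : Γ) (f : S.Z U) :
    rho S U hU τ (QuotientAddGroup.mk f) = QuotientAddGroup.mk (cjH S U hU τ f) := rfl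

theorem mk_eq {V : Subgroup Γ} {f g : S.Z V} :
    (QuotientAddGroup.mk f : S.A V) = QuotientAddGroup.mk g ↔
      ∃ t : T, ∀ σ : V, g.1 σ - f.1 σ = (σ : Γ) • t - t := by
  rw [QuotientAddGroup.eq]
  constructor
  · rintro ⟨t, ht⟩
    refine ⟨t, fun σ => ?_⟩
    have h := ht σ
    rw [← h]
    show _ = - f.1 σ + g.1 σ
    abel
  · rintro ⟨t, ht⟩
    refine ⟨t, fun σ => ?_⟩
    rw [← ht σ]
    show - f.1 σ + g.1 σ = _
    abel

theorem rho_one (a : S.A U) : rho S U hU 1 a = a := by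
  induction a using QuotientAddGroup.induction_on with
  | H f =>
    rw [rho_mk]
    congr 1
    apply Subtype.ext
    funext σ
    show (1 : Γ) • f.1 _ = f.1 σ
    rw [one_smul]
    refine congrArg f.1 (Subtype.ext ?_)
    show (1 : Γ)⁻¹ * (σ : Γ) * 1 = σ
    rw [inv_one, one_mul, mul_one]

theorem rho_mul (σ τ : Γ) (a : S.A U) : rho S U hU (σ * τ) a = rho S U hU σ (rho S U hU τ a) := by
  induction a using QuotientAddGroup.induction_on with
  | H f =>
    rw [rho_mk, rho_mk, rho_mk]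
    congr 1
    apply Subtype.ext
    funext x
    show (σ * τ) • f.1 _ = σ • (τ • f.1 _)
    rw [mul_smul]
    refine congrArg (fun z => σ • (τ • z)) (congrArg f.1 (Subtype.ext ?_))
    show (σ * τ)⁻¹ * (x : Γ) * (σ * τ) = τ⁻¹ * (σ⁻¹ * (x : Γ) * σ) * τ
    group

/-- the conjugate of the restriction of a cocycle of a larger group by an element of that group -/
theorem cj_inner {V : Subgroup Γ} (hV : U ≤ V) {f : V → T} (hf : f ∈ S.Z V) (σ : V) (x : U) :
    cjf U hU σ (fun y : U => f ⟨y, hV y.2⟩) x - f ⟨x, hV x.2⟩ = (x : Γ) • f σ - f σ := by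
  have h1 : f (σ⁻¹) = - (((σ⁻¹ : V) : Γ) • f σ) := by
    have h := S.coc V f hf σ⁻¹ σ
    rw [inv_mul_cancel, z_one S V hf] at h
    exact eq_neg_of_add_eq_zero_left h.symm
  have h2 : (⟨((σ : Γ)⁻¹ * (x : Γ) * (σ : Γ)), hV (by
      have h := hU.conj_mem x x.2 (σ : Γ)⁻¹
      rwa [inv_inv] at h)⟩ : V) = σ⁻¹ * (⟨x, hV x.2⟩ * σ) := by
    apply Subtype.ext
    show (σ : Γ)⁻¹ * (x : Γ) * (σ : Γ) = (σ : Γ)⁻¹ * ((x : Γ) * (σ : Γ))
    rw [mul_assoc]
  show (σ : Γ) • f ⟨((σ : Γ)⁻¹ * (x : Γ) * (σ : Γ)), _⟩ - _ = _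
  rw [h2, S.coc V f hf, S.coc V f hf, h1]
  show (σ : Γ) • (-((σ : Γ)⁻¹ • f σ) + (σ : Γ)⁻¹ • (f ⟨x, hV x.2⟩ + (x : Γ) • f σ)) - _ = _
  rw [smul_add, smul_neg, smul_inv_smul, smul_inv_smul]
  abel

theorem rho_inner (σ : Γ) (hσ : σ ∈ U) (a : S.A U) : rho S U hU σ a = a := by
  induction a using QuotientAddGroup.induction_on with
  | H f =>
    rw [rho_mk]
    symm
    rw [mk_eq]
    refine ⟨f.1 ⟨σ, hσ⟩, fun x => ?_⟩
    exact cj_inner S U hU le_rfl f.2 ⟨σ, hσ⟩ x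

/-- restriction of cocycles -/
def resH {V : Subgroup Γ} (hV : U ≤ V) : S.Z V →+ S.Z U where
  toFun f := ⟨fun σ : U => f.1 ⟨σ, hV σ.2⟩, S.res U V hV f.1 f.2⟩
  map_zero' := rfl
  map_add' f g := rfl

theorem resH_B {V : Subgroup Γ} (hV : U ≤ V) : S.B V ≤ (S.B U).comap (resH S U hV) := by
  rintro f ⟨t, ht⟩
  exact ⟨t, fun σ => ht ⟨σ, hV σ.2⟩⟩

/-- restriction of classes -/
noncomputable def phi {V : Subgroup Γ} (hV : U ≤ V) : S.A V →+ S.A U :=
  QuotientAddGroup.map (S.B V) (S.B U) (resH S U hV) (resH_B S U hV)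

theorem phi_mk {V : Subgroup Γ} (hV : U ≤ V) (f : S.Z V) :
    phi S U hV (QuotientAddGroup.mk f) = QuotientAddGroup.mk (resH S U hV f) := rfl

include hU in
theorem phi_inj (hT : ∀ t : T, (∀ σ ∈ U, σ • t = t) → t = 0) {V : Subgroup Γ} (hV : U ≤ V) :
    Function.Injective (phi S U hV) := by
  rw [injective_iff_map_eq_zero]
  intro a
  induction a using QuotientAddGroup.induction_on with
  | H f =>
    intro h
    rw [phi_mk] at h
    have h0 : (QuotientAddGroup.mk (0 : S.Z U) : S.A U) = QuotientAddGroup.mk (resH S U hV f) := by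
      rw [h]; rfl
    rw [mk_eq] at h0
    obtain ⟨t, ht⟩ := h0
    have h1 : (QuotientAddGroup.mk (0 : S.Z V) : S.A V) = QuotientAddGroup.mk f := by
      rw [mk_eq]
      refine ⟨t, fun σ => ?_⟩
      show f.1 σ - 0 = _
      rw [sub_zero, ← sub_eq_zero]
      have hu : ∀ u : Γ, ∀ hu : u ∈ U, f.1 ⟨u, hV hu⟩ = u • t - t := by
        intro u hu
        have := ht ⟨u, hu⟩
        have h3 : f.1 ⟨u, hV hu⟩ - 0 = u • t - t := this
        rwa [sub_zero] at h3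
      apply hT
      intro u huU
      have hc : (σ : Γ)⁻¹ * u * (σ : Γ) ∈ U := by
        have h := hU.conj_mem u huU (σ : Γ)⁻¹
        rwa [inv_inv] at h
      have e1 := S.coc V f.1 f.2 ⟨u, hV huU⟩ σ
      have e2 := S.coc V f.1 f.2 σ ⟨(σ : Γ)⁻¹ * u * (σ : Γ), hV hc⟩
      have e3 : (⟨u, hV huU⟩ : V) * σ = σ * ⟨(σ : Γ)⁻¹ * u * (σ : Γ), hV hc⟩ := by
        apply Subtype.ext
        show u * (σ : Γ) = (σ : Γ) * ((σ : Γ)⁻¹ * u * (σ : Γ))
        rw [← mul_assoc, ← mul_assoc, mul_inv_cancel, one_mul]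
      rw [e3, e2, hu _ huU, hu _ hc] at e1
      have e4 : (σ : Γ) • (((σ : Γ)⁻¹ * u * (σ : Γ)) • t - t) = u • ((σ : Γ) • t) - (σ : Γ) • t := by
        rw [smul_sub, ← mul_smul, ← mul_smul, ← mul_assoc, ← mul_assoc, mul_inv_cancel, one_mul]
      rw [e4] at e1
      have e5 : u • f.1 σ = f.1 σ + (u • ((σ : Γ) • t) - (σ : Γ) • t) - (u • t - t) := by
        rw [e1]
        show u • f.1 σ = _ + u • f.1 σ - _
        abel
      rw [smul_sub, smul_sub, e5]
      abel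
    rw [← h1]
    rfl

theorem rho_phi {V : Subgroup Γ} (hV : U ≤ V) (a : S.A V) (σ : Γ) (hσ : σ ∈ V) :
    rho S U hU σ (phi S U hV a) = phi S U hV a := by
  induction a using QuotientAddGroup.induction_on with
  | H f =>
    rw [phi_mk, rho_mk]
    symm
    rw [mk_eq]
    exact ⟨f.1 ⟨σ, hσ⟩, fun x => cj_inner S U hU hV f.2 ⟨σ, hσ⟩ x⟩

theorem surj (hT : ∀ t : T, (∀ σ ∈ U, σ • t = t) → t = 0)
    (hgl : ∀ f : Γ → T, (∀ σ τ, f (σ * τ) = f σ + σ • f τ) → (fun σ : U => f σ) ∈ S.Z U →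
      (fun σ : (⊤ : Subgroup Γ) => f σ) ∈ S.Z ⊤) (a : S.A U) (ha : ∀ σ, rho S U hU σ a = a) :
    ∃ b : S.A ⊤, phi S U le_top b = a := by
  induction a using QuotientAddGroup.induction_on with
  | H f =>
    have h1 : ∀ τ : Γ, ∃ t : T, ∀ x : U, cjf U hU τ f.1 x - f.1 x = (x : Γ) • t - t := by
      intro τ
      have h := ha τ
      rw [rho_mk] at h
      exact (mk_eq S).mp h.symm
    choose R hR using h1
    have huniq : ∀ t t' : T, (∀ x : U, (x : Γ) • t - t = (x : Γ) • t' - t') → t = t' := by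
      intro t t' h
      rw [← sub_eq_zero]
      apply hT
      intro σ hσ
      have := h ⟨σ, hσ⟩
      rw [smul_sub]
      have h2 : σ • t - t = σ • t' - t' := this
      rw [sub_eq_sub_iff_add_eq_add] at h2
      rw [sub_eq_sub_iff_add_eq_add, h2]
      abel
    have hRU : ∀ x : U, R x = f.1 x := by
      intro σ
      apply huniq
      intro x
      rw [← hR]
      exact cj_inner S U hU le_rfl f.2 σ x
    have hcoc : ∀ σ τ, R (σ * τ) = R σ + σ • R τ := by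
      intro σ τ
      apply huniq
      intro x
      rw [← hR]
      have hx : (σ⁻¹ * (x : Γ) * σ) ∈ U := by
        have h := hU.conj_mem x x.2 σ⁻¹
        rwa [inv_inv] at h
      have e1 : cjf U hU (σ * τ) f.1 x = σ • cjf U hU τ f.1 ⟨σ⁻¹ * (x : Γ) * σ, hx⟩ := by
        show (σ * τ) • f.1 _ = σ • (τ • f.1 _)
        rw [mul_smul]
        refine congrArg (fun z => σ • (τ • z)) (congrArg f.1 (Subtype.ext ?_))
        show (σ * τ)⁻¹ * (x : Γ) * (σ * τ) = τ⁻¹ * (σ⁻¹ * (x : Γ) * σ) * τ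
        group
      have e2 := hR τ ⟨σ⁻¹ * (x : Γ) * σ, hx⟩
      have e3 := hR σ x
      have e4 : cjf U hU σ f.1 x = σ • f.1 ⟨σ⁻¹ * (x : Γ) * σ, hx⟩ := rfl
      rw [e4] at e3
      have e5 : cjf U hU τ f.1 ⟨σ⁻¹ * (x : Γ) * σ, hx⟩ =
          f.1 ⟨σ⁻¹ * (x : Γ) * σ, hx⟩ + ((σ⁻¹ * (x : Γ) * σ) • R τ - R τ) := by
        rw [← e2]
        abel
      rw [e1, e5, smul_add, smul_sub, ← mul_smul, ← mul_assoc, ← mul_assoc, mul_inv_cancel,
        one_mul, mul_smul, smul_add]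
      have e6 : σ • f.1 ⟨σ⁻¹ * (x : Γ) * σ, hx⟩ = f.1 x + ((x : Γ) • R σ - R σ) := by
        rw [← e3]
        abel
      rw [e6]
      abel
    have hfun : (fun σ : U => R σ) = f.1 := funext hRU
    have hg : (fun σ : (⊤ : Subgroup Γ) => R σ) ∈ S.Z ⊤ := by
      refine hgl R hcoc ?_
      rw [hfun]
      exact f.2
    refine ⟨QuotientAddGroup.mk ⟨_, hg⟩, ?_⟩
    rw [phi_mk]
    congr 1
    apply Subtype.ext
    funext x
    exact hRU x

end

theorem t_ABS : S_ABS := by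
  intro Γ T _ _ _ S U hU hT hgl
  refine ⟨fun σ => rho S U hU σ, rho_one S U hU, rho_mul S U hU, fun σ hσ a => rho_inner S U hU σ hσ a,
    fun V hV => ⟨phi S U hV, phi_inj S U hU hT hV, fun a σ hσ => rho_phi S U hU hV a σ hσ⟩, ?_⟩
  refine ⟨Equiv.ofBijective (fun a => ⟨phi S U le_top a, fun σ =>
    rho_phi S U hU le_top a σ (Subgroup.mem_top σ)⟩) ⟨?_, ?_⟩⟩
  · intro a b h
    exact phi_inj S U hU hT le_top (Subtype.ext_iff.mp h)
  · rintro ⟨a, ha⟩
    obtain ⟨b, hb⟩ := surj S U hU hT hgl a ha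
    exact ⟨b, Subtype.ext hb⟩

end Pool.Agent.H5.HB
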